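import Pool.Agent.ZP3.Stmts

/-!
DEP: dependent elements of equal norm differ by a root of unity.
-/

set_option autoImplicit false

namespace Pool.Agent.ZP3.H67

open Pool.Agent.ZPT

/-- Powers of a positive real number different from one are injective. -/
theorem pow_inj {r : ℝ} (h0 : 0 < r) (h1 : r ≠ 1) {m n : ℕ} (h : r ^ m = r ^ n) : m = n :=
  pow_right_injective₀ h0 h1 h

/-- The third clause. -/
theorem dep3 {K : Type} [NormedField K] {x z : K} {a b : ℕ} (hz : z ≠ 0) (hn : ‖z‖ ≠ 1)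
    (ha : 1 ≤ a) (hx : x ^ a = z ^ b) {u v : ℕ} (h : ‖x‖ ^ u = ‖z‖ ^ v) :
    ∃ ζ : K, Ro ζ ∧ x ^ u = ζ * z ^ v := by
  have hz0 : 0 < ‖z‖ := norm_pos_iff.mpr hz
  have hxn : ‖x‖ ^ a = ‖z‖ ^ b := by
    have h2 := congrArg (fun t => ‖t‖) hx
    simpa only [norm_pow] using h2
  have h1 : ‖z‖ ^ (b * u) = ‖z‖ ^ (v * a) := by
    rw [pow_mul, pow_mul, ← hxn, ← h, ← pow_mul, ← pow_mul, mul_comm a u]
  have h3 : b * u = v * a := pow_inj hz0 hn h1
  have hzv : z ^ v ≠ 0 := pow_ne_zero v hz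
  refine ⟨x ^ u / z ^ v, ⟨a, ha, ?_⟩, ?_⟩
  · rw [div_pow, ← pow_mul, ← pow_mul, mul_comm u a, pow_mul, hx, ← pow_mul, h3]
    exact div_self (pow_ne_zero _ hz)
  · rw [div_mul_cancel₀ _ hzv]

theorem dep : DEPStmt := by
  intro K _ x y z a b c d hz hn ha hb hc hd hx hy
  have hz0 : 0 < ‖z‖ := norm_pos_iff.mpr hz
  have hxn : ‖x‖ ^ a = ‖z‖ ^ b := by
    have h2 := congrArg (fun t => ‖t‖) hx
    simpa only [norm_pow] using h2
  have hx0 : x ≠ 0 := by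
    intro h0
    rw [h0, zero_pow (by omega)] at hx
    exact pow_ne_zero b hz hx.symm
  have hy0 : y ≠ 0 := by
    intro h0
    rw [h0, zero_pow (by omega)] at hy
    exact pow_ne_zero d hz hy.symm
  have hx1 : ‖x‖ ≠ 1 := by
    intro h1
    rw [h1, one_pow] at hxn
    have h2 : ‖z‖ ^ 0 = ‖z‖ ^ b := by rw [pow_zero]; exact hxn
    have h3 := pow_inj hz0 hn h2
    omega
  refine ⟨?_, ?_, ?_⟩
  · intro hxy
    have h1 : x ^ (a * d) = y ^ (c * b) := by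
      rw [pow_mul, hx, pow_mul, hy, ← pow_mul, ← pow_mul, mul_comm b d]
    have h2 : ‖x‖ ^ (a * d) = ‖x‖ ^ (c * b) := by
      have h4 := congrArg (fun t => ‖t‖) h1
      have h5 : ‖x‖ ^ (a * d) = ‖y‖ ^ (c * b) := by simpa only [norm_pow] using h4
      rw [h5, ← hxy]
    have h3 : a * d = c * b := pow_inj (norm_pos_iff.mpr hx0) hx1 h2
    refine ⟨a * d, Nat.one_le_iff_ne_zero.mpr (Nat.mul_ne_zero (by omega) (by omega)), ?_⟩
    rw [div_pow, h1, ← h3]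
    exact div_self (pow_ne_zero _ hy0)
  · intro hxz
    have h1 : ‖x‖ ^ 1 = ‖z‖ ^ 1 := by rw [pow_one, pow_one, hxz]
    obtain ⟨ζ, hζ, h2⟩ := dep3 hz hn ha hx h1
    rw [pow_one, pow_one] at h2
    have h3 : x / z = ζ := by rw [h2]; exact mul_div_cancel_right₀ ζ hz
    rw [h3]
    exact hζ
  · intro u v _ _ h
    exact dep3 hz hn ha hx h

end Pool.Agent.ZP3.H67
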